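import Pool.Agent.R730.MT.GG

/-!
The monotone triangle polynomial at the doubled, reversed even row.
-/

namespace Pool.Agent.Results.MP_7863f5_co.DoubledEven

open Pool.Agent.R730.MT

/-- There is exactly one family of polynomials counting monotone triangles, and it satisfies
`α(n; 2, 4, ..., 2n) = α(2n; 2n, 2n, 2n-2, 2n-2, ..., 2, 2)` for all `n ≥ 1`. -/
theorem result :
    ∃ α : (∀ n, MvPolynomial (Fin n) ℚ), (∀ n p, IsMTPoly n p ↔ p = α n) ∧
      ∀ n : ℕ, 1 ≤ n → valAt α (evens n) = valAt α (dbl (evens n).reverse) := by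
  refine ⟨mtp, isMTPoly_iff, ?_⟩
  intro n _
  have hlen : (dbl (evens n).reverse).length = 2 * n := by
    simp only [length_dbl, List.length_reverse, length_evens]
  rw [valAt_eq (length_evens n), valAt_eq hlen, wd_dbl_evens, al_GG]

end Pool.Agent.Results.MP_7863f5_co.DoubledEven
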